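import Mathlib

/-!
PT Sel: Selberg's weights.

M ≥ 1, z > 1: there are real weights lam r, lam 1 = 1, |lam r| ≤ 1, supported on squarefree r ≤ z coprime to M, with
   0 ≤ ∑_{r,s ≤ z} lam r lam s / lcm(r,s) ≤ (M/φ(M)) / log z.
Proof.  G = ∑_{r ≤ z, (r,M)=1} μ²(r)/φ(r) and, for squarefree r ≤ z coprime to M,
   lam r = μ(r) (r/φ(r)) (1/G) G_r,   G_r = ∑_{s ≤ z/r, (s, rM)=1} μ²(s)/φ(s).
 * lam 1 = 1.
 * G ≥ ∑_{k | r} ∑_{s ≤ z/r, (s,rM)=1} μ²(ks)/φ(ks) = (∑_{k|r} 1/φ(k)) G_r = (r/φ(r)) G_r, so |lam r| ≤ 1.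
 * lcm: 1/lcm(r,s) = gcd(r,s)/(rs), gcd(r,s) = ∑_{d | r, d | s} φ(d), so the quadratic form is ∑_d φ(d) y_d² ≥ 0,
   y_d = ∑_{d | r} lam r/r, and y_d = μ(d)/(φ(d) G) for squarefree d ≤ z coprime to M (0 otherwise)
   (∑_{r : d | r} μ(r)/φ(r) G_r: put t = r s; = ∑_{t : d | t, t ≤ z, (t,M)=1} μ²(t)/φ(t) ∑_{r | t, d | r} μ(r) = μ(d)·[t = d]...),
   hence the form is (1/G²) ∑ μ²(d)/φ(d) = 1/G.
 * G · (M/φ(M)) ≥ ∑_{n ≤ z} 1/n ≥ log z: every n ≤ z is n = a b with b composed of primes dividing M and (a,M)=1;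
   ∑_{a ≤ z, (a,M)=1} 1/a ≤ ∑_{r ≤ z, (r,M)=1} μ²(r)/φ(r)  (group a by its radical: 1/φ(r) = ∑_{rad(a) = r} 1/a), and
   ∑_b 1/b = M/φ(M) over b composed of primes dividing M (finite partial sums are ≤).
-/

set_option autoImplicit false

namespace Pool.Agent.H91.PT

open Finset

/-! ### The sum over the numbers with a given radical -/

/-- the product of the primes dividing `n` but not `M` -/
def selRad (M n : ℕ) : ℕ := ∏ p ∈ n.primeFactors.filter (fun p => ¬ p ∣ M), p

theorem selRad_dvd (M n : ℕ) : selRad M n ∣ n :=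
  (prod_dvd_prod_of_subset _ _ _ (filter_subset _ _)).trans (Nat.prod_primeFactors_dvd n)

theorem sel_sq (T : Finset ℕ) (hT : ∀ p ∈ T, p.Prime) : Squarefree (∏ p ∈ T, p) := by
  classical
  induction T using Finset.induction_on with
  | empty => simp
  | insert a T ha ih =>
    have ha' : a.Prime := hT a (mem_insert_self a T)
    have hT' : ∀ p ∈ T, p.Prime := fun p hp => hT p (mem_insert_of_mem hp)
    have hcop : Nat.Coprime a (∏ p ∈ T, p) := by
      refine Nat.Coprime.prod_right ?_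
      intro p hp
      rw [Nat.coprime_primes ha' (hT' p hp)]
      rintro rfl
      exact ha hp
    rw [prod_insert ha, Nat.squarefree_mul hcop]
    exact ⟨ha'.squarefree, ih hT'⟩

theorem selRad_sq (M n : ℕ) : Squarefree (selRad M n) :=
  sel_sq _ fun _ hp => Nat.prime_of_mem_primeFactors (mem_filter.1 hp).1

theorem selRad_coprime (M n : ℕ) : Nat.Coprime (selRad M n) M := by
  refine Nat.Coprime.prod_left ?_
  intro p hp
  rw [mem_filter] at hp
  exact (Nat.Prime.coprime_iff_not_dvd (Nat.prime_of_mem_primeFactors hp.1)).2 hp.2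

/-- the completely multiplicative function `1/n` -/
noncomputable def selInv : ℕ →* ℝ where
  toFun n := (n : ℝ)⁻¹
  map_one' := by simp
  map_mul' m n := by
    rw [Nat.cast_mul, mul_inv]

theorem selInv_apply (n : ℕ) : selInv n = (n : ℝ)⁻¹ := rfl

theorem sel_tot (K : ℕ) (hK : K ≠ 0) :
    ∏ p ∈ K.primeFactors with p.Prime, (1 - selInv p)⁻¹ = (K : ℝ) / K.totient := by
  have h1 : (K.primeFactors.filter fun p => p.Prime) = K.primeFactors :=
    filter_true_of_mem fun p hp => Nat.prime_of_mem_primeFactors hp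
  rw [h1]
  have h2 : (K.totient : ℝ) = K * ∏ p ∈ K.primeFactors, (1 - (p : ℝ)⁻¹) := by
    have h := congrArg (fun q : ℚ => (q : ℝ)) (Nat.totient_eq_mul_prod_factors K)
    push_cast at h
    exact h
  have hφ : (K.totient : ℝ) ≠ 0 := by
    have := Nat.totient_pos.2 (Nat.pos_of_ne_zero hK)
    positivity
  have hK' : (K : ℝ) ≠ 0 := by exact_mod_cast hK
  rw [eq_div_iff hφ, h2, prod_inv_distrib]
  have h3 : ∏ p ∈ K.primeFactors, (1 - (p : ℝ)⁻¹) ≠ 0 := by
    intro h
    rw [h2, h, mul_zero] at hφ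
    exact hφ rfl
  simp only [selInv_apply]
  generalize ∏ p ∈ K.primeFactors, (1 - (p : ℝ)⁻¹) = Q at h3
  field_simp

theorem sel_sum (K : ℕ) (hK : K ≠ 0) (T : Finset ℕ)
    (hT : ∀ m ∈ T, m ∈ Nat.factoredNumbers K.primeFactors) :
    ∑ m ∈ T, (m : ℝ)⁻¹ ≤ (K : ℝ) / K.totient := by
  classical
  obtain ⟨h1, h2⟩ := EulerProduct.summable_and_hasSum_factoredNumbers_prod_filter_prime_geometric
    (f := selInv) (fun {p} hp => by
      rw [selInv_apply, norm_inv, Real.norm_natCast]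
      exact inv_lt_one_of_one_lt₀ (by exact_mod_cast hp.one_lt)) K.primeFactors
  rw [sel_tot K hK] at h2
  rw [← h2.tsum_eq]
  have h3 : ∑ m ∈ T, (m : ℝ)⁻¹ = ∑ m ∈ T.attach.image (fun m => (⟨m.1, hT m.1 m.2⟩ :
      Nat.factoredNumbers K.primeFactors)), selInv m := by
    rw [sum_image]
    · rw [← sum_attach]
      rfl
    · intro x _ y _ h
      exact Subtype.ext (congrArg (fun z : Nat.factoredNumbers K.primeFactors => (z : ℕ)) h)
  rw [h3]
  refine h2.summable.sum_le_tsum _ fun i _ => ?_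
  rw [selInv_apply]
  positivity

theorem sel_fiber (M : ℕ) (hM : 1 ≤ M) (N r : ℕ) (hr : r ≠ 0) (hrM : Nat.Coprime r M) :
    ∑ n ∈ (Icc 1 N).filter (fun n => selRad M n = r), (n : ℝ)⁻¹ ≤
      (1 / (r.totient : ℝ)) * ((M : ℝ) / M.totient) := by
  classical
  have hM0 : M ≠ 0 := by omega
  have hK : r * M ≠ 0 := mul_ne_zero hr hM0
  have h1 : ∀ n ∈ (Icc 1 N).filter (fun n => selRad M n = r), r ∣ n := by
    intro n hn
    rw [mem_filter] at hn
    rw [← hn.2]
    exact selRad_dvd M n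
  have h2 := sel_sum (r * M) hK (((Icc 1 N).filter (fun n => selRad M n = r)).image (fun n => n / r))
    (by
      intro m hm
      rw [mem_image] at hm
      obtain ⟨n, hn, rfl⟩ := hm
      have hrn := h1 n hn
      rw [mem_filter, mem_Icc] at hn
      have hn0 : n ≠ 0 := by omega
      rw [Nat.mem_factoredNumbers]
      refine ⟨?_, ?_⟩
      · exact (Nat.div_pos (Nat.le_of_dvd (by omega) hrn) (Nat.pos_of_ne_zero hr)).ne'
      · intro p hp
        have hpp := Nat.prime_of_mem_primeFactorsList hp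
        have hpn : p ∣ n := (Nat.dvd_of_mem_primeFactorsList hp).trans (Nat.div_dvd_of_dvd hrn)
        rw [Nat.mem_primeFactors]
        refine ⟨hpp, ?_, hK⟩
        by_cases hpM : p ∣ M
        · exact hpM.mul_left r
        · refine Dvd.dvd.mul_right ?_ M
          rw [← hn.2]
          refine dvd_prod_of_mem _ ?_
          rw [mem_filter, Nat.mem_primeFactors]
          exact ⟨⟨hpp, hpn, hn0⟩, hpM⟩)
  rw [sum_image] at h2
  · have h3 : ∑ n ∈ (Icc 1 N).filter (fun n => selRad M n = r), (n : ℝ)⁻¹ =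
        (r : ℝ)⁻¹ * ∑ n ∈ (Icc 1 N).filter (fun n => selRad M n = r), ((n / r : ℕ) : ℝ)⁻¹ := by
      rw [mul_sum]
      refine sum_congr rfl fun n hn => ?_
      rw [← mul_inv]
      congr 1
      rw [← Nat.cast_mul, Nat.mul_div_cancel' (h1 n hn)]
    rw [h3]
    refine (mul_le_mul_of_nonneg_left h2 (by positivity)).trans (le_of_eq ?_)
    rw [Nat.totient_mul hrM, Nat.cast_mul, Nat.cast_mul]
    have hr' : (r : ℝ) ≠ 0 := by exact_mod_cast hr
    field_simp
  · intro x hx y hy hxy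
    have e1 := Nat.mul_div_cancel' (h1 x hx)
    have e2 := Nat.mul_div_cancel' (h1 y hy)
    have hxy' : x / r = y / r := hxy
    rw [← e1, ← e2, hxy']

/-- the set of moduli -/
def selS (M N : ℕ) : Finset ℕ := (Icc 1 N).filter (fun r => Squarefree r ∧ Nat.Coprime r M)

theorem mem_selS {M N r : ℕ} :
    r ∈ selS M N ↔ (1 ≤ r ∧ r ≤ N) ∧ Squarefree r ∧ Nat.Coprime r M := by
  unfold selS
  rw [mem_filter, mem_Icc]

theorem selS_dvd {M N r t : ℕ} (ht : t ∈ selS M N) (h : r ∣ t) : r ∈ selS M N := by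
  rw [mem_selS] at ht ⊢
  have ht0 : 0 < t := by omega
  refine ⟨⟨Nat.pos_of_dvd_of_pos h ht0, (Nat.le_of_dvd ht0 h).trans ht.1.2⟩,
    ht.2.1.squarefree_of_dvd h, Nat.Coprime.coprime_dvd_left h ht.2.2⟩

/-- the main sum -/
noncomputable def selG (M N : ℕ) : ℝ := ∑ r ∈ selS M N, 1 / (r.totient : ℝ)

theorem selG_ge (M : ℕ) (hM : 1 ≤ M) (N : ℕ) :
    ∑ n ∈ Icc 1 N, (n : ℝ)⁻¹ ≤ selG M N * ((M : ℝ) / M.totient) := by
  classical
  have hmaps : ∀ n ∈ Icc 1 N, selRad M n ∈ selS M N := by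
    intro n hn
    rw [mem_Icc] at hn
    rw [mem_selS]
    have h0 : 0 < n := by omega
    exact ⟨⟨Nat.pos_of_dvd_of_pos (selRad_dvd M n) h0, (Nat.le_of_dvd h0 (selRad_dvd M n)).trans hn.2⟩,
      selRad_sq M n, selRad_coprime M n⟩
  rw [← sum_fiberwise_of_maps_to hmaps]
  unfold selG
  rw [sum_mul]
  refine sum_le_sum fun r hr => ?_
  rw [mem_selS] at hr
  exact sel_fiber M hM N r (by omega) hr.2.2

/-! ### The weights -/

/-- the inner sum -/
noncomputable def selH (M N r : ℕ) : ℝ := ∑ t ∈ (selS M N).filter (fun t => r ∣ t), 1 / (t.totient : ℝ)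

/-- Selberg's weights -/
noncomputable def selLam (M N r : ℕ) : ℝ :=
  (ArithmeticFunction.moebius r : ℝ) * (r : ℝ) / selG M N * selH M N r

theorem selH_one (M N : ℕ) : selH M N 1 = selG M N := by
  unfold selH selG
  rw [filter_true_of_mem]
  intro t _
  exact one_dvd t

theorem selH_zero {M N r : ℕ} (h : r ∉ selS M N) : selH M N r = 0 := by
  unfold selH
  rw [filter_false_of_mem, sum_empty]
  intro t ht hrt
  exact h (selS_dvd ht hrt)

theorem selH_nonneg (M N r : ℕ) : 0 ≤ selH M N r :=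
  sum_nonneg fun t _ => by positivity

theorem selG_pos {M N : ℕ} (hN : 1 ≤ N) : 0 < selG M N := by
  have h1 : (1 : ℕ) ∈ selS M N := by
    rw [mem_selS]
    exact ⟨⟨le_rfl, hN⟩, squarefree_one, Nat.coprime_one_left M⟩
  refine sum_pos' (fun t _ => by positivity) ⟨1, h1, ?_⟩
  simp

theorem selH_le {M N r : ℕ} (hr : r ∈ selS M N) : (r : ℝ) * selH M N r ≤ selG M N := by
  classical
  have hr' := mem_selS.1 hr
  have hr0 : r ≠ 0 := by omega
  have hmaps : ∀ t ∈ selS M N, Nat.gcd t r ∈ r.divisors := by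
    intro t _
    rw [Nat.mem_divisors]
    exact ⟨Nat.gcd_dvd_right t r, hr0⟩
  have h1 : ∀ k ∈ r.divisors, ((r / k).totient : ℝ) * selH M N r ≤
      ∑ t ∈ (selS M N).filter (fun t => Nat.gcd t r = k), 1 / (t.totient : ℝ) := by
    intro k hk
    rw [Nat.mem_divisors] at hk
    have hk0 : k ≠ 0 := fun h => hr0 (Nat.eq_zero_of_zero_dvd (h ▸ hk.1))
    obtain ⟨l, hl⟩ := hk.1
    have hsqr : Squarefree (k * l) := hl ▸ hr'.2.1
    have hkl : Nat.Coprime k l := Nat.coprime_of_squarefree_mul hsqr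
    have hrk : r / k = l := by
      rw [hl]
      exact Nat.mul_div_cancel_left l (Nat.pos_of_ne_zero hk0)
    have hl0 : l ≠ 0 := by
      rintro rfl
      rw [mul_zero] at hl
      exact hr0 hl
    -- the injection
    have h2 : ∀ u ∈ (selS M N).filter (fun t => r ∣ t), ∃ s, u = r * s ∧ Nat.Coprime r s ∧ s ≠ 0 := by
      intro u hu
      rw [mem_filter] at hu
      obtain ⟨s, hs⟩ := hu.2
      have hu' := mem_selS.1 hu.1
      refine ⟨s, hs, Nat.coprime_of_squarefree_mul (hs ▸ hu'.2.1), ?_⟩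
      rintro rfl
      rw [mul_zero] at hs
      omega
    have h3 : ((r / k).totient : ℝ) * selH M N r =
        ∑ u ∈ (selS M N).filter (fun t => r ∣ t), 1 / ((k * (u / r)).totient : ℝ) := by
      unfold selH
      rw [mul_sum]
      refine sum_congr rfl fun u hu => ?_
      obtain ⟨s, hs, hcop, hs0⟩ := h2 u hu
      have e1 : u / r = s := by
        rw [hs]
        exact Nat.mul_div_cancel_left s (Nat.pos_of_ne_zero hr0)
      have hks : Nat.Coprime k s := Nat.Coprime.coprime_dvd_left hk.1 hcop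
      rw [e1, hrk, hs, Nat.totient_mul hcop, Nat.totient_mul hks, hl, Nat.totient_mul hkl]
      have a1 : (k.totient : ℝ) ≠ 0 := by
        have := Nat.totient_pos.2 (Nat.pos_of_ne_zero hk0)
        positivity
      have a2 : (l.totient : ℝ) ≠ 0 := by
        have := Nat.totient_pos.2 (Nat.pos_of_ne_zero hl0)
        positivity
      have a3 : (s.totient : ℝ) ≠ 0 := by
        have := Nat.totient_pos.2 (Nat.pos_of_ne_zero hs0)
        positivity
      push_cast
      field_simp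
    rw [h3, ← sum_image (s := (selS M N).filter (fun t => r ∣ t)) (g := fun u => k * (u / r))
      (f := fun t : ℕ => 1 / (t.totient : ℝ))]
    · refine sum_le_sum_of_subset_of_nonneg ?_ (fun t _ _ => by positivity)
      intro t ht
      rw [mem_image] at ht
      obtain ⟨u, hu, rfl⟩ := ht
      obtain ⟨s, hs, hcop, hs0⟩ := h2 u hu
      have e1 : u / r = s := by
        rw [hs]
        exact Nat.mul_div_cancel_left s (Nat.pos_of_ne_zero hr0)
      rw [e1, mem_filter]
      rw [mem_filter] at hu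
      refine ⟨selS_dvd hu.1 ?_, ?_⟩
      · rw [hs]
        exact mul_dvd_mul_right hk.1 s
      · have hsl : Nat.Coprime s l := (Nat.Coprime.coprime_dvd_left ⟨k, by rw [hl]; ring⟩ hcop).symm
        rw [hl, Nat.gcd_mul_left, hsl.gcd_eq_one, mul_one]
    · intro u hu v hv huv
      obtain ⟨s, hs, -, -⟩ := h2 u hu
      obtain ⟨s', hs', -, -⟩ := h2 v hv
      have huv' : k * (u / r) = k * (v / r) := huv
      rw [hs, hs', Nat.mul_div_cancel_left s (Nat.pos_of_ne_zero hr0),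
        Nat.mul_div_cancel_left s' (Nat.pos_of_ne_zero hr0)] at huv'
      rw [hs, hs', Nat.eq_of_mul_eq_mul_left (Nat.pos_of_ne_zero hk0) huv']
  have h4 : selG M N = ∑ k ∈ r.divisors,
      ∑ t ∈ (selS M N).filter (fun t => Nat.gcd t r = k), 1 / (t.totient : ℝ) := by
    rw [sum_fiberwise_of_maps_to hmaps]
    rfl
  rw [h4]
  refine le_trans (le_of_eq ?_) (sum_le_sum h1)
  rw [← sum_mul]
  congr 1
  rw [Nat.sum_div_divisors r (fun m => ((m.totient : ℕ) : ℝ))]
  have := Nat.sum_totient r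
  exact_mod_cast this.symm

/-! ### The quadratic form -/

theorem sel_mu (d t : ℕ) (ht : Squarefree t) (N : ℕ) (htN : t ≤ N) (hdt : d ∣ t) :
    ∑ r ∈ (Icc 1 N).filter (fun r => d ∣ r ∧ r ∣ t), (ArithmeticFunction.moebius r : ℝ) =
      if t = d then (ArithmeticFunction.moebius d : ℝ) else 0 := by
  classical
  have ht0 : t ≠ 0 := ht.ne_zero
  obtain ⟨l, hl⟩ := hdt
  have hd0 : d ≠ 0 := by
    rintro rfl
    rw [zero_mul] at hl
    exact ht0 hl
  have hl0 : l ≠ 0 := by
    rintro rfl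
    rw [mul_zero] at hl
    exact ht0 hl
  have hdl : Nat.Coprime d l := Nat.coprime_of_squarefree_mul (hl ▸ ht)
  have h1 : (Icc 1 N).filter (fun r => d ∣ r ∧ r ∣ t) = l.divisors.image (fun k => d * k) := by
    ext r
    rw [mem_filter, mem_Icc, mem_image]
    constructor
    · rintro ⟨⟨h1, h2⟩, ⟨k, hk⟩, h4⟩
      refine ⟨k, ?_, hk.symm⟩
      rw [Nat.mem_divisors]
      refine ⟨?_, hl0⟩
      rw [hk, hl] at h4
      exact (Nat.mul_dvd_mul_iff_left (Nat.pos_of_ne_zero hd0)).1 h4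
    · rintro ⟨k, hk, rfl⟩
      rw [Nat.mem_divisors] at hk
      have h5 : d * k ∣ t := by
        rw [hl]
        exact mul_dvd_mul_left d hk.1
      have h6 : d * k ≠ 0 := fun h => ht0 (Nat.eq_zero_of_zero_dvd (h ▸ h5))
      exact ⟨⟨Nat.pos_of_ne_zero h6, (Nat.le_of_dvd (Nat.pos_of_ne_zero ht0) h5).trans htN⟩,
        ⟨k, rfl⟩, h5⟩
  rw [h1, sum_image (by
    intro x _ y _ hxy
    exact Nat.eq_of_mul_eq_mul_left (Nat.pos_of_ne_zero hd0) hxy)]
  have h2 : ∀ k ∈ l.divisors, (ArithmeticFunction.moebius (d * k) : ℝ) =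
      (ArithmeticFunction.moebius d : ℝ) * (ArithmeticFunction.moebius k : ℝ) := by
    intro k hk
    rw [Nat.mem_divisors] at hk
    have : Nat.Coprime d k := Nat.Coprime.coprime_dvd_right hk.1 hdl
    rw [ArithmeticFunction.isMultiplicative_moebius.map_mul_of_coprime this]
    push_cast
    ring
  rw [sum_congr rfl h2, ← mul_sum]
  have h3 : ∑ k ∈ l.divisors, (ArithmeticFunction.moebius k : ℝ) = if l = 1 then 1 else 0 := by
    have h := congrArg (fun f : ArithmeticFunction ℤ => f l)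
      ArithmeticFunction.coe_zeta_mul_moebius
    simp only [ArithmeticFunction.coe_zeta_mul_apply, ArithmeticFunction.one_apply] at h
    have h' := congrArg (fun q : ℤ => (q : ℝ)) h
    push_cast at h'
    exact h'
  rw [h3]
  by_cases hl1 : l = 1
  · rw [if_pos hl1, if_pos (by rw [hl, hl1, mul_one]), mul_one]
  · rw [if_neg hl1, if_neg, mul_zero]
    intro h
    apply hl1
    rw [hl] at h
    exact Nat.eq_of_mul_eq_mul_left (Nat.pos_of_ne_zero hd0) (h.trans (mul_one d).symm)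

/-- the diagonal variables -/
noncomputable def selY (M N d : ℕ) : ℝ :=
  ∑ r ∈ Icc 1 N, if d ∣ r then selLam M N r / (r : ℝ) else 0

theorem selY_eq {M N : ℕ} (hN : 1 ≤ N) (d : ℕ) :
    selY M N d = if d ∈ selS M N then
      (ArithmeticFunction.moebius d : ℝ) / (selG M N * (d.totient : ℝ)) else 0 := by
  classical
  have hG : selG M N ≠ 0 := (selG_pos hN).ne'
  have h1 : ∀ r ∈ Icc 1 N, (if d ∣ r then selLam M N r / (r : ℝ) else 0) =
      ∑ t ∈ selS M N, (if d ∣ r ∧ r ∣ t then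
        (ArithmeticFunction.moebius r : ℝ) * (1 / (selG M N * (t.totient : ℝ))) else 0) := by
    intro r hr
    rw [mem_Icc] at hr
    have hr0 : (r : ℝ) ≠ 0 := by
      have : r ≠ 0 := by omega
      exact_mod_cast this
    by_cases hdr : d ∣ r
    · rw [if_pos hdr]
      unfold selLam selH
      rw [mul_sum, sum_filter, sum_div]
      refine sum_congr rfl fun t ht => ?_
      by_cases hrt : r ∣ t
      · have ht0 : (t.totient : ℝ) ≠ 0 := by
          have h2 := mem_selS.1 ht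
          have := Nat.totient_pos.2 (show 0 < t by omega)
          positivity
        rw [if_pos hrt, if_pos ⟨hdr, hrt⟩]
        field_simp
      · rw [if_neg hrt, if_neg (fun h => hrt h.2)]
        simp
    · rw [if_neg hdr]
      symm
      refine sum_eq_zero fun t _ => ?_
      rw [if_neg (fun h => hdr h.1)]
  unfold selY
  rw [sum_congr rfl h1, sum_comm]
  have h2 : ∀ t ∈ selS M N, ∑ r ∈ Icc 1 N, (if d ∣ r ∧ r ∣ t then
        (ArithmeticFunction.moebius r : ℝ) * (1 / (selG M N * (t.totient : ℝ))) else 0) =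
      if t = d then (ArithmeticFunction.moebius d : ℝ) / (selG M N * (d.totient : ℝ)) else 0 := by
    intro t ht
    have ht' := mem_selS.1 ht
    rw [← sum_filter, ← sum_mul]
    by_cases hdt : d ∣ t
    · rw [sel_mu d t ht'.2.1 N ht'.1.2 hdt]
      by_cases htd : t = d
      · rw [if_pos htd, if_pos htd, htd, mul_one_div]
      · rw [if_neg htd, if_neg htd, zero_mul]
    · have h3 : (Icc 1 N).filter (fun r => d ∣ r ∧ r ∣ t) = ∅ := by
        rw [filter_eq_empty_iff]
        intro r _ h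
        exact hdt (h.1.trans h.2)
      rw [h3, sum_empty, zero_mul, if_neg]
      rintro rfl
      exact hdt dvd_rfl
  rw [sum_congr rfl h2, sum_ite_eq' (selS M N) d]

theorem selQ_eq (M N : ℕ) :
    ∑ r ∈ Icc 1 N, ∑ s ∈ Icc 1 N, selLam M N r * selLam M N s / (Nat.lcm r s : ℝ) =
      ∑ d ∈ Icc 1 N, (d.totient : ℝ) * selY M N d ^ 2 := by
  classical
  have h1 : ∀ r ∈ Icc 1 N, ∀ s ∈ Icc 1 N,
      selLam M N r * selLam M N s / (Nat.lcm r s : ℝ) =
        ∑ d ∈ Icc 1 N, (d.totient : ℝ) * ((if d ∣ r then selLam M N r / (r : ℝ) else 0) *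
          (if d ∣ s then selLam M N s / (s : ℝ) else 0)) := by
    intro r hr s hs
    rw [mem_Icc] at hr hs
    have hr0 : (r : ℝ) ≠ 0 := by
      have : r ≠ 0 := by omega
      exact_mod_cast this
    have hs0 : (s : ℝ) ≠ 0 := by
      have : s ≠ 0 := by omega
      exact_mod_cast this
    have hl0 : (Nat.lcm r s : ℝ) ≠ 0 := by
      have : Nat.lcm r s ≠ 0 := Nat.lcm_ne_zero (by omega) (by omega)
      exact_mod_cast this
    have e1 : (Nat.gcd r s : ℝ) * (Nat.lcm r s : ℝ) = r * s := by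
      exact_mod_cast Nat.gcd_mul_lcm r s
    have e2 : (Nat.gcd r s : ℝ) = ∑ d ∈ Icc 1 N, if d ∣ r ∧ d ∣ s then (d.totient : ℝ) else 0 := by
      have e3 : ((Nat.gcd r s).divisors : Finset ℕ) = (Icc 1 N).filter (fun d => d ∣ r ∧ d ∣ s) := by
        ext d
        rw [Nat.mem_divisors, mem_filter, mem_Icc, Nat.dvd_gcd_iff]
        constructor
        · rintro ⟨⟨h1, h2⟩, -⟩
          exact ⟨⟨Nat.pos_of_dvd_of_pos h1 (by omega), (Nat.le_of_dvd (by omega) h1).trans hr.2⟩, h1, h2⟩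
        · rintro ⟨-, h1, h2⟩
          exact ⟨⟨h1, h2⟩, (Nat.gcd_pos_of_pos_left s (by omega)).ne'⟩
      rw [← sum_filter, ← e3]
      exact_mod_cast (Nat.sum_totient (Nat.gcd r s)).symm
    have e4 : selLam M N r * selLam M N s / (Nat.lcm r s : ℝ) =
        (selLam M N r / r) * (selLam M N s / s) * (Nat.gcd r s : ℝ) := by
      rw [div_eq_iff hl0]
      have : selLam M N r / r * (selLam M N s / s) * (Nat.gcd r s : ℝ) * (Nat.lcm r s : ℝ) =
          selLam M N r / r * (selLam M N s / s) * ((Nat.gcd r s : ℝ) * (Nat.lcm r s : ℝ)) := by ring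
      rw [this, e1]
      field_simp
    rw [e4, e2, mul_sum]
    refine sum_congr rfl fun d _ => ?_
    by_cases h1 : d ∣ r
    · by_cases h2 : d ∣ s
      · rw [if_pos ⟨h1, h2⟩, if_pos h1, if_pos h2]
        ring
      · rw [if_neg (fun h => h2 h.2), if_neg h2]
        ring
    · rw [if_neg (fun h => h1 h.1), if_neg h1]
      ring
  rw [sum_congr rfl fun r hr => sum_congr rfl fun s hs => h1 r hr s hs]
  rw [sum_congr rfl fun r _ => sum_comm, sum_comm]
  refine sum_congr rfl fun d _ => ?_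
  unfold selY
  rw [sq, sum_mul_sum, mul_sum]
  refine sum_congr rfl fun r _ => ?_
  rw [mul_sum]

theorem selQ_val {M N : ℕ} (hN : 1 ≤ N) :
    ∑ r ∈ Icc 1 N, ∑ s ∈ Icc 1 N, selLam M N r * selLam M N s / (Nat.lcm r s : ℝ) =
      1 / selG M N := by
  classical
  have hG : selG M N ≠ 0 := (selG_pos hN).ne'
  rw [selQ_eq]
  have h1 : ∀ d ∈ Icc 1 N, (d.totient : ℝ) * selY M N d ^ 2 =
      if Squarefree d ∧ Nat.Coprime d M then 1 / (d.totient : ℝ) * (1 / selG M N ^ 2) else 0 := by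
    intro d hd
    rw [mem_Icc] at hd
    rw [selY_eq hN d]
    by_cases h : Squarefree d ∧ Nat.Coprime d M
    · rw [if_pos h, if_pos (mem_selS.2 ⟨hd, h⟩)]
      have hd0 : (d.totient : ℝ) ≠ 0 := by
        have := Nat.totient_pos.2 (show 0 < d by omega)
        positivity
      have hmu : (ArithmeticFunction.moebius d : ℝ) ^ 2 = 1 := by
        have := ArithmeticFunction.moebius_sq_eq_one_of_squarefree h.1
        exact_mod_cast this
      rw [div_pow, hmu]
      field_simp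
    · rw [if_neg h, if_neg (fun h' => h (mem_selS.1 h').2)]
      simp
  rw [sum_congr rfl h1, ← sum_filter, ← sum_mul]
  have h2 : ∑ r ∈ (Icc 1 N).filter (fun r => Squarefree r ∧ Nat.Coprime r M),
      1 / (r.totient : ℝ) = selG M N := rfl
  rw [h2]
  field_simp

theorem selberg_weights (M : ℕ) (hM : 1 ≤ M) {z : ℝ} (hz : 1 < z) :
    ∃ lam : ℕ → ℝ, lam 1 = 1 ∧ (∀ r, |lam r| ≤ 1) ∧
      (∀ r, lam r ≠ 0 → 1 ≤ r ∧ (r : ℝ) ≤ z ∧ Nat.Coprime r M ∧ Squarefree r) ∧
      0 ≤ ∑ r ∈ Icc 1 ⌊z⌋₊, ∑ s ∈ Icc 1 ⌊z⌋₊, lam r * lam s / (Nat.lcm r s : ℝ) ∧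
      ∑ r ∈ Icc 1 ⌊z⌋₊, ∑ s ∈ Icc 1 ⌊z⌋₊, lam r * lam s / (Nat.lcm r s : ℝ)
        ≤ (M : ℝ) / M.totient / Real.log z := by
  classical
  have hN : 1 ≤ ⌊z⌋₊ := Nat.le_floor (by push_cast; exact hz.le)
  have hG := selG_pos (M := M) hN
  have hsupp : ∀ r, selLam M ⌊z⌋₊ r ≠ 0 → r ∈ selS M ⌊z⌋₊ := by
    intro r hr
    by_contra h
    apply hr
    unfold selLam
    rw [selH_zero h, mul_zero]
  refine ⟨selLam M ⌊z⌋₊, ?_, ?_, ?_, ?_, ?_⟩
  · unfold selLam
    rw [selH_one, ArithmeticFunction.moebius_apply_one]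
    field_simp
    simp
  · intro r
    by_cases h : r ∈ selS M ⌊z⌋₊
    · unfold selLam
      have h1 : |(ArithmeticFunction.moebius r : ℝ)| ≤ 1 := by
        have := ArithmeticFunction.abs_moebius_le_one (n := r)
        exact_mod_cast this
      have h2 := selH_le h
      have h3 := selH_nonneg M ⌊z⌋₊ r
      have h4 : (ArithmeticFunction.moebius r : ℝ) * (r : ℝ) / selG M ⌊z⌋₊ * selH M ⌊z⌋₊ r =
          (ArithmeticFunction.moebius r : ℝ) * ((r : ℝ) * selH M ⌊z⌋₊ r / selG M ⌊z⌋₊) := by ring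
      rw [h4, abs_mul]
      have h5 : 0 ≤ (r : ℝ) * selH M ⌊z⌋₊ r / selG M ⌊z⌋₊ := by positivity
      rw [abs_of_nonneg h5]
      have h6 : (r : ℝ) * selH M ⌊z⌋₊ r / selG M ⌊z⌋₊ ≤ 1 := (div_le_one hG).2 h2
      exact mul_le_one₀ h1 h5 h6
    · have : selLam M ⌊z⌋₊ r = 0 := by
        by_contra h'
        exact h (hsupp r h')
      rw [this, abs_zero]
      exact zero_le_one
  · intro r hr
    have h := mem_selS.1 (hsupp r hr)
    exact ⟨h.1.1, (Nat.le_floor_iff (by linarith)).1 h.1.2, h.2.2, h.2.1⟩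
  · rw [selQ_val hN]
    positivity
  · rw [selQ_val hN]
    have h1 : Real.log z ≤ selG M ⌊z⌋₊ * ((M : ℝ) / M.totient) := by
      have h2 : Real.log z ≤ Real.log ((⌊z⌋₊ + 1 : ℕ) : ℝ) := by
        refine Real.log_le_log (by linarith) ?_
        push_cast
        exact (Nat.lt_floor_add_one z).le
      have h3 := log_add_one_le_harmonic ⌊z⌋₊
      have h4 : ((harmonic ⌊z⌋₊ : ℚ) : ℝ) = ∑ n ∈ Icc 1 ⌊z⌋₊, (n : ℝ)⁻¹ := by
        rw [harmonic_eq_sum_Icc]
        push_cast
        rfl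
      have h5 := selG_ge M hM ⌊z⌋₊
      rw [h4] at h3
      exact h2.trans (h3.trans h5)
    have h2 : 0 < Real.log z := Real.log_pos hz
    rw [div_le_div_iff₀ hG h2, one_mul]
    rw [mul_comm] at h1
    exact h1

end Pool.Agent.H91.PT
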